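import Pool.Agent.R316.QJ

/-!
# Primitive zeta-like depth-two multizeta values over `F_2[t]`

The completion `K_∞ = F_2((1/t))` of `K = F_2(t)` at infinity is Mathlib's field `(ZMod 2)⸨X⸩` of
Laurent series over `ZMod 2` (with its topology), the variable `X` of the Laurent series standing
for `1/t`.
-/

open scoped LaurentSeries
open Polynomial

namespace Pool.Agent.Results.MP_968e92_nt.PrimitiveZetaLikePairs

/-- The element `t` of `K_∞ = F_2((1/t))`: the inverse of the variable of the Laurent series. -/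
noncomputable def tt : (ZMod 2)⸨X⸩ := HahnSeries.single (-1) 1

/-- A polynomial `a ∈ F_2[t]`, viewed in `K_∞`: its value at `t`. -/
noncomputable def val (a : (ZMod 2)[X]) : (ZMod 2)⸨X⸩ := aeval tt a

/-- The Carlitz zeta value `ζ(s)`, the sum of `a^(-s)` over all monic `a`. -/
noncomputable def zeta (s : ℕ) : (ZMod 2)⸨X⸩ :=
  ∑' a : {a : (ZMod 2)[X] // a.Monic}, ((val a.1)⁻¹) ^ s

/-- The depth two multizeta value `ζ(s₁, s₂)`, the sum of `a₁^(-s₁) a₂^(-s₂)` over all pairs of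
monic polynomials with `deg a₁ > deg a₂`. -/
noncomputable def zeta₂ (s₁ s₂ : ℕ) : (ZMod 2)⸨X⸩ :=
  ∑' p : {p : (ZMod 2)[X] × (ZMod 2)[X] //
      p.1.Monic ∧ p.2.Monic ∧ p.2.natDegree < p.1.natDegree},
    ((val p.1.1)⁻¹) ^ s₁ * ((val p.1.2)⁻¹) ^ s₂

/-- The pair `(s₁, s₂)` is zeta-like: the ratio `ζ(s₁, s₂) / ζ(s₁ + s₂)` lies in `K = F_2(t)`. -/
def ZetaLike (s₁ s₂ : ℕ) : Prop :=
  ∃ a b : (ZMod 2)[X], b ≠ 0 ∧ zeta₂ s₁ s₂ / zeta (s₁ + s₂) = val a / val b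

/-- The pair is primitive: its entries are not both even. -/
def Primitive (s₁ s₂ : ℕ) : Prop := ¬ (Even s₁ ∧ Even s₂)

/-- The set `L` of the problem. -/
def Lset : Set (ℕ × ℕ) :=
  {(1, 1), (1, 3), (3, 5)} ∪ {s | ∃ n : ℕ, 1 ≤ n ∧ s = (2 ^ n - 1, 2 ^ n)} ∪
    {s | ∃ n : ℕ, 1 ≤ n ∧ s = (2 ^ n, 2 ^ (n + 1) + 2 ^ n - 1)}

/-- The series defining `ζ(s)` converges. -/
theorem summable_zeta (s : ℕ) (hs : 0 < s) :
    Summable (fun a : {a : (ZMod 2)[X] // a.Monic} => ((val a.1)⁻¹) ^ s) :=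
  Pool.Agent.R316.Ff.laurent_summable1 (ZMod 2) s hs

/-- The series defining `ζ(s₁, s₂)` converges. -/
theorem summable_zeta₂ (s₁ s₂ : ℕ) (hs₁ : 0 < s₁) :
    Summable (fun p : {p : (ZMod 2)[X] × (ZMod 2)[X] //
        p.1.Monic ∧ p.2.Monic ∧ p.2.natDegree < p.1.natDegree} =>
      ((val p.1.1)⁻¹) ^ s₁ * ((val p.1.2)⁻¹) ^ s₂) :=
  Pool.Agent.R316.Ff.laurent_summable2 (ZMod 2) s₁ s₂ hs₁

/-- **Affirmative answer to the question**: every primitive zeta-like pair of positive integers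
(for `q = 2`) belongs to `L`. -/
theorem result (s₁ s₂ : ℕ) (hs₁ : 0 < s₁) (hs₂ : 0 < s₂) (hprim : Primitive s₁ s₂)
    (h : ZetaLike s₁ s₂) : (s₁, s₂) ∈ Lset := by
  obtain ⟨a, b, -, hab⟩ := h
  have hcl := Pool.Agent.R316.Ff.laurent_class2 (ZMod 2) (ZMod.card 2) s₁ s₂ hs₁ hs₂ a b hab
    (fun hd => hprim ⟨even_iff_two_dvd.mpr hd.1, even_iff_two_dvd.mpr hd.2⟩)
  rcases hcl with ⟨rfl, rfl⟩ | ⟨rfl, rfl⟩ | ⟨rfl, rfl⟩ | ⟨n, hn, ⟨h1, h2⟩ | ⟨h1, h2⟩⟩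
  · left; left; simp
  · left; left; simp
  · left; left; simp
  · left; right
    exact ⟨n, hn, by rw [h1, h2]⟩
  · right
    exact ⟨n, hn, by rw [h1, h2]⟩

end Pool.Agent.Results.MP_968e92_nt.PrimitiveZetaLikePairs
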